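import Pool.Agent.P.MP_678d3c_nt.Main

open Filter Topology Pool.Agent.P.MP_678d3c_nt

/-- The odd terms of every unbounded `5x+1` orbit satisfy the strong Benford law to base 2. -/
theorem Pool.Agent.Results.MP_678d3c_nt.OddBaseTwo.result :
    ∀ n : ℕ, 0 < n → ¬ BddAbove (Set.range fun k : ℕ => T5^[k] n) →
      ∀ a b : ℝ, 0 ≤ a → a ≤ b → b ≤ 1 → Tendsto (oddFreq n 2 a b) atTop (𝓝 (b - a)) :=
  fun _ hn h _ _ ha hab hb => odd_base_two hn h ha hab hb
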