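import Pool.Agent.P.MP_678d3c_nt.Main

open Filter Topology Pool.Agent.P.MP_678d3c_nt

/-- Upper Benford bound for the bases `5 * 2 ^ j` along every unbounded `5x+1` orbit. -/
theorem Pool.Agent.Results.MP_678d3c_nt.UpperBenford.result :
    ∀ n : ℕ, 0 < n → ¬ BddAbove (Set.range fun k : ℕ => T5^[k] n) →
      ∀ a b : ℝ, 0 ≤ a → a ≤ b → b ≤ 1 → ∀ (j : ℕ) (ε : ℝ), 0 < ε →
        ∀ᶠ N in atTop, freq n (5 * 2 ^ j) a b N ≤ (j + 1) * (b - a) + ε :=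
  fun _ hn h _ _ ha hab hb j _ hε => base_upper hn h j ha hab hb hε
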